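import Pool.Graph.R_pool_sql_team_39128cda.H.MP_6eec66_an.C

set_option autoImplicit false

namespace Pool.Agent.Results.MP_6eec66_an.ContainsEllTwo

open Finset Filter Topology Pool.Agent.H.MP_6eec66_an
open scoped ENNReal

/-- The Hilbert space `ℓ₂`. -/
abbrev Ell2 : Type := lp (fun _ : ℕ => ℝ) 2

section
variable {G : Type*} [NormedAddCommGroup G] [NormedSpace ℝ G] {f : ℕ → G}

theorem fin_sided (h : ∀ (N : ℕ) (a : ℕ → ℝ),
    √(∑ n ∈ range N, a n ^ 2) / 2 ≤ ‖∑ n ∈ range N, a n • f n‖ ∧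
      ‖∑ n ∈ range N, a n • f n‖ ≤ 11 * √(∑ n ∈ range N, a n ^ 2)) (s : Finset ℕ) (a : ℕ → ℝ) :
    √(∑ n ∈ s, a n ^ 2) / 2 ≤ ‖∑ n ∈ s, a n • f n‖ ∧
      ‖∑ n ∈ s, a n • f n‖ ≤ 11 * √(∑ n ∈ s, a n ^ 2) := by
  classical
  obtain ⟨N, hN⟩ := s.exists_nat_subset_range
  have h1 := h N fun n => if n ∈ s then a n else 0
  have e1 : ∑ n ∈ range N, (if n ∈ s then a n else 0) ^ 2 = ∑ n ∈ s, a n ^ 2 := by
    rw [← sum_subset hN fun n _ hn => by simp [hn]]
    exact sum_congr rfl fun n hn => by simp [hn]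
  have e2 : ∑ n ∈ range N, (if n ∈ s then a n else 0) • f n = ∑ n ∈ s, a n • f n := by
    rw [← sum_subset hN fun n _ hn => by simp [hn]]
    exact sum_congr rfl fun n hn => by simp [hn]
  rwa [e1, e2] at h1

theorem sq_summable (x : Ell2) : Summable fun n => x n ^ 2 := by
  have := (lp.memℓp x).summable (by norm_num)
  simpa using this

theorem norm_sq (x : Ell2) : ‖x‖ = √(∑' n, x n ^ 2) := by
  rw [lp.norm_eq_tsum_rpow (by norm_num), Real.sqrt_eq_rpow]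
  simp

theorem emb [CompleteSpace G] (h : ∀ (N : ℕ) (a : ℕ → ℝ),
    √(∑ n ∈ range N, a n ^ 2) / 2 ≤ ‖∑ n ∈ range N, a n • f n‖ ∧
      ‖∑ n ∈ range N, a n • f n‖ ≤ 11 * √(∑ n ∈ range N, a n ^ 2)) :
    ∃ T : Ell2 →L[ℝ] G, (∀ x : Ell2, HasSum (fun n => x n • f n) (T x)) ∧
      ∀ x, ‖x‖ / 2 ≤ ‖T x‖ ∧ ‖T x‖ ≤ 11 * ‖x‖ := by
  have hs : ∀ x : Ell2, Summable fun n => x n • f n := fun x => by
    refine summable_iff_vanishing_norm.2 fun ε hε => ?_
    obtain ⟨s, hs⟩ := summable_iff_vanishing_norm.1 (sq_summable x) ((ε / 11) ^ 2) (by positivity)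
    refine ⟨s, fun t ht => ?_⟩
    have h1 := hs t ht
    have h2 := (fin_sided h t x).2
    rw [Real.norm_of_nonneg (sum_nonneg fun _ _ => sq_nonneg _)] at h1
    have h3 := (Real.sqrt_lt' (by positivity : 0 < ε / 11)).2 h1
    linarith
  have hb : ∀ x : Ell2, ‖x‖ / 2 ≤ ‖∑' n, x n • f n‖ ∧ ‖∑' n, x n • f n‖ ≤ 11 * ‖x‖ := fun x => by
    have t1 : Tendsto (fun s : Finset ℕ => ‖∑ n ∈ s, x n • f n‖) atTop (𝓝 ‖∑' n, x n • f n‖) :=
      (hs x).hasSum.norm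
    have t2 : Tendsto (fun s : Finset ℕ => √(∑ n ∈ s, x n ^ 2)) atTop (𝓝 ‖x‖) := by
      rw [norm_sq]
      exact (Real.continuous_sqrt.tendsto _).comp (sq_summable x).hasSum
    exact ⟨le_of_tendsto_of_tendsto' (t2.div_const 2) t1 fun s => (fin_sided h s x).1,
      le_of_tendsto_of_tendsto' t1 (t2.const_mul 11) fun s => (fin_sided h s x).2⟩
  let T : Ell2 →ₗ[ℝ] G :=
    { toFun := fun x => ∑' n, x n • f n
      map_add' := fun x y => by
        rw [← (hs x).tsum_add (hs y)]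
        exact tsum_congr fun n => by simp [add_smul]
      map_smul' := fun c x => by
        rw [RingHom.id_apply, ← (hs x).tsum_const_smul c]
        exact tsum_congr fun n => by simp [mul_smul] }
  exact ⟨T.mkContinuous 11 fun x => (hb x).2, fun x => (hs x).hasSum, hb⟩

end

/-- Hereditary, covering and compact families of finite subsets of `ℕ`. -/
structure CompactFHC (𝓕 : Set (Finset ℕ)) : Prop where
  hereditary : ∀ A ∈ 𝓕, ∀ B : Finset ℕ, B ⊆ A → B ∈ 𝓕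
  covering : ∀ i : ℕ, ({i} : Finset ℕ) ∈ 𝓕
  compact : ∀ M : Set ℕ, M.Infinite → ∃ A : Finset ℕ, (↑A : Set ℕ) ⊆ M ∧ A ∉ 𝓕

/-- `E` with the vectors `e i` is the combinatorial Banach space `X_𝓕`. -/
structure IsComb (𝓕 : Set (Finset ℕ)) (E : Type) [NormedAddCommGroup E] [NormedSpace ℝ E]
    (e : ℕ → E) : Prop where
  complete : CompleteSpace E
  dense : Dense (Submodule.span ℝ (Set.range e) : Set E)
  norm : ∀ (n : ℕ) (a : ℕ → ℝ),
    ‖∑ i ∈ range n, a i • e i‖ = sSup ((fun F : Finset ℕ => ∑ i ∈ F ∩ range n, |a i|) '' 𝓕)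

/-- Some bounded sequence of `Y` is equivalent to the unit vector basis of `ℓ₁`. -/
def HasEllOne {G : Type} [NormedAddCommGroup G] [NormedSpace ℝ G] (Y : Submodule ℝ G) : Prop :=
  ∃ (g : ℕ → G) (c : ℝ), 0 < c ∧ (∀ i, g i ∈ Y ∧ ‖g i‖ ≤ 1) ∧
    ∀ (n : ℕ) (a : ℕ → ℝ), c * ∑ i ∈ range n, |a i| ≤ ‖∑ i ∈ range n, a i • g i‖

/-- `T` is an isomorphic embedding of `ℓ₂` with constants `1/2` and `11`. -/
def IsEmb {G : Type} [NormedAddCommGroup G] [NormedSpace ℝ G] (T : Ell2 →ₗ[ℝ] G) : Prop :=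
  ∀ x, ‖x‖ / 2 ≤ ‖T x‖ ∧ ‖T x‖ ≤ 11 * ‖x‖

/-- **Duals of compact combinatorial spaces may contain `ℓ₂`.** There is a compact hereditary
covering family `𝓕` for which the dual of `X_𝓕` contains an isomorphic copy `Y` of `ℓ₂`; this `Y`
is closed, infinite-dimensional and contains no copy of `ℓ₁`. -/
theorem result : ∃ 𝓕 : Set (Finset ℕ), CompactFHC 𝓕 ∧
    ∃ (E : Type) (_ : NormedAddCommGroup E) (_ : NormedSpace ℝ E) (e : ℕ → E), IsComb 𝓕 E e ∧
      ∃ T : Ell2 →ₗ[ℝ] (E →L[ℝ] ℝ), IsEmb T ∧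
        IsClosed (LinearMap.range T : Set (E →L[ℝ] ℝ)) ∧
        ¬ FiniteDimensional ℝ (LinearMap.range T) ∧ ¬ HasEllOne (LinearMap.range T) := by
  refine ⟨fam, ⟨fun _ hA _ hB => fam_sub hA hB, fam_single, fam_cpt⟩, ?_⟩
  obtain ⟨E, i1, i2, i3, e, f, h1, h2, h3⟩ := ex
  obtain ⟨T, hT, hb⟩ := emb h3
  have hcl : IsClosed (LinearMap.range (T : Ell2 →ₗ[ℝ] (E →L[ℝ] ℝ)) : Set (E →L[ℝ] ℝ)) := by
    have : AntilipschitzWith 2 T := AddMonoidHomClass.antilipschitz_of_bound T fun x => by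
      have := (hb x).1
      push_cast
      linarith
    exact this.isClosed_range T.uniformContinuous
  have hmem : ∀ x, T x ∈ (Submodule.span ℝ (Set.range f)).topologicalClosure := fun x =>
    mem_closure_of_tendsto (hT x) (Eventually.of_forall fun s => Submodule.sum_mem _ fun n _ =>
      Submodule.smul_mem _ _ (Submodule.subset_span ⟨n, rfl⟩))
  refine ⟨E, i1, i2, e, ⟨i3, h1, h2⟩, T, hb, hcl, fun hfin => ?_, ?_⟩
  · refine not_fin h3 ?_
    have hle : (Submodule.span ℝ (Set.range f)).topologicalClosure ≤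
        LinearMap.range (T : Ell2 →ₗ[ℝ] (E →L[ℝ] ℝ)) := by
      refine Submodule.topologicalClosure_minimal _ (Submodule.span_le.2 ?_) hcl
      rintro _ ⟨n, rfl⟩
      refine ⟨lp.single 2 n (1 : ℝ), (hT _).unique ?_⟩
      convert hasSum_single n ?_
      · simp
      · intro m hm
        simp [hm]
    exact Submodule.finiteDimensional_of_le hle
  · rintro ⟨g, c, hc, hg, hlow⟩
    refine no_l1 h3 g hc (fun i => ⟨?_, (hg i).2⟩) hlow
    obtain ⟨x, hx⟩ := (hg i).1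
    rw [← hx]
    exact hmem x

end Pool.Agent.Results.MP_6eec66_an.ContainsEllTwo
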